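import Mathlib

/-!
Coefficients of `N(t,z) / (Q(t) + z t^r)`: with `Q = 1`, `r = 1`, `N = 1` the coefficient `P_m` is
`(-z)^m`, which has `m` zeros (with multiplicity) at the point `0`, outside `(0, ∞)`.
-/

set_option autoImplicit false

open Polynomial

namespace Pool.Agent.Results.MP_4d57dd_an.ConstantDenominator

/-- The denominator `Q(t) + z t^r` as a polynomial in `t` over `ℝ[z]`. -/
noncomputable def den (Q : ℝ[X]) (r : ℕ) : ℝ[X][X] := Q.map C + C X * X ^ r

/-- `P` is the sequence of coefficients of the expansion of `N / (Q(t) + z t^r)` in powers of `t`: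
`(∑ P_m t^m) (Q(t) + z t^r) = N(t, z)` as power series in `t` over `ℝ[z]`. -/
def IsExpansion (Q : ℝ[X]) (r : ℕ) (N : ℝ[X][X]) (P : ℕ → ℝ[X]) : Prop :=
  PowerSeries.mk P * (den Q r : PowerSeries ℝ[X]) = (N : PowerSeries ℝ[X])

open Classical in
/-- The number of complex zeros of `p`, with multiplicity, outside `(0, ∞)`. -/
noncomputable def zerosOff (p : ℝ[X]) : ℕ :=
  (p.map (algebraMap ℝ ℂ)).roots.countP fun w => ¬ (w.im = 0 ∧ 0 < w.re)

lemma roots_P (m : ℕ) : (((-X : ℝ[X]) ^ m).map (algebraMap ℝ ℂ)).roots = m • ({0} : Multiset ℂ) := by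
  rw [Polynomial.map_pow, Polynomial.map_neg, Polynomial.map_X, Polynomial.roots_pow,
    Polynomial.roots_neg, Polynomial.roots_X]

lemma off_P (m : ℕ) : zerosOff ((-X : ℝ[X]) ^ m) = m := by
  classical
  have h1 : Multiset.countP (fun w : ℂ => ¬ (w.im = 0 ∧ 0 < w.re)) {0} = 1 := by
    rw [← Multiset.cons_zero, Multiset.countP_cons_of_pos _ (by simp)]
    simp
  unfold zerosOff
  rw [roots_P, Multiset.countP_nsmul]
  convert Nat.mul_one m

/-- There are `Q` with `Q(0) > 0` and no complex zero outside `(0, ∞)`, an integer `r ≥ 1` and `N`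
with `deg_t N < max (deg Q) r` for which the number of zeros of `P_m` outside `(0, ∞)`, over the `m`
with `P_m ≠ 0`, is unbounded. -/
theorem result : ∃ (Q : ℝ[X]) (r : ℕ) (N : ℝ[X][X]) (P : ℕ → ℝ[X]),
    0 < Q.eval 0 ∧ (∀ w : ℂ, aeval w Q = 0 → w.im = 0 ∧ 0 < w.re) ∧ 1 ≤ r ∧
    N.natDegree < max Q.natDegree r ∧ IsExpansion Q r N P ∧
    ∀ B : ℕ, ∃ m : ℕ, P m ≠ 0 ∧ B ≤ zerosOff (P m) := by
  refine ⟨1, 1, 1, fun m => (-X) ^ m, by simp, fun w hw => ?_, le_rfl, by simp, ?_, fun B => ?_⟩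
  · simp at hw
  · unfold IsExpansion den
    ext1 n
    rw [Polynomial.map_one, pow_one, Polynomial.coe_add, Polynomial.coe_one, Polynomial.coe_mul,
      Polynomial.coe_C, Polynomial.coe_X, mul_add, mul_one, map_add, ← mul_assoc]
    rcases n with _ | n
    · simp
    · rw [PowerSeries.coeff_succ_mul_X, PowerSeries.coeff_mul_C, PowerSeries.coeff_mk,
        PowerSeries.coeff_mk, PowerSeries.coeff_one, if_neg (Nat.succ_ne_zero n), pow_succ]
      ring
  · exact ⟨B, pow_ne_zero _ (neg_ne_zero.mpr X_ne_zero), (off_P B).ge⟩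

end Pool.Agent.Results.MP_4d57dd_an.ConstantDenominator
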